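import Pool.Agent.Helper15.RA.GoalsH

/-!
# Project RA, packet RA-HV: the anti-automorphism `T_w ↦ T_(w⁻¹)` of the Hecke algebra; it maps `c_w` to `c_(w⁻¹)`.
-/

set_option autoImplicit false

open LaurentPolynomial

noncomputable section

namespace Pool.Agent.Helper59.RA

open Pool.Agent.Helper15.RA

variable {I W H : Type} [Group W] [Ring H] [Algebra ℤ[T;T⁻¹] H] {M : CoxeterMatrix I}
    {cs : CoxeterSystem M W} {L : W → ℕ}

/-- The linear map with `T_w ↦ T_(w⁻¹)`. -/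
def flip (D : Hecke0 cs L H) : H →ₗ[ℤ[T;T⁻¹]] H := D.t.constr ℤ[T;T⁻¹] fun w => D.t w⁻¹

theorem flip_t (D : Hecke0 cs L H) (w : W) : flip D (D.t w) = D.t w⁻¹ :=
  D.t.constr_basis ℤ[T;T⁻¹] _ w

/-- coordinates of the image of a map permuting a basis by inversion -/
theorem repr_inv (b : Module.Basis W ℤ[T;T⁻¹] H) (F : H →ₗ[ℤ[T;T⁻¹]] H) (hF : ∀ w, F (b w) = b w⁻¹)
    (Z : H) (y : W) : b.repr (F Z) y = b.repr Z y⁻¹ := by
  classical
  have h : (Finsupp.lapply y ∘ₗ (b.repr : H →ₗ[ℤ[T;T⁻¹]] (W →₀ ℤ[T;T⁻¹]))) ∘ₗ F =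
      Finsupp.lapply y⁻¹ ∘ₗ (b.repr : H →ₗ[ℤ[T;T⁻¹]] (W →₀ ℤ[T;T⁻¹])) := by
    refine b.ext fun w => ?_
    simp only [LinearMap.comp_apply, hF, LinearEquiv.coe_coe, Module.Basis.repr_self, Finsupp.lapply_apply,
      Finsupp.single_apply]
    by_cases h : w⁻¹ = y
    · rw [if_pos h, if_pos (by rw [← h, inv_inv])]
    · rw [if_neg h, if_neg]
      intro h2
      exact h (by rw [h2, inv_inv])
  exact LinearMap.congr_fun h Z

theorem flip_simple (h1 : H_1) (D : Hecke0 cs L H) (i : I) (Y : H) :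
    flip D (D.t (cs.simple i) * Y) = flip D Y * D.t (cs.simple i) := by
  obtain ⟨-, hl1, hl2, hr1, hr2, -⟩ := h1 I W H M cs L D
  have h : flip D ∘ₗ LinearMap.mulLeft ℤ[T;T⁻¹] (D.t (cs.simple i)) =
      LinearMap.mulRight ℤ[T;T⁻¹] (D.t (cs.simple i)) ∘ₗ flip D := by
    refine D.t.ext fun w => ?_
    simp only [LinearMap.comp_apply, LinearMap.mulLeft_apply, LinearMap.mulRight_apply, flip_t]
    have hlen : cs.length (w⁻¹ * cs.simple i) = cs.length (cs.simple i * w) := by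
      rw [← cs.length_inv (cs.simple i * w), mul_inv_rev, cs.inv_simple]
    have hinv : (cs.simple i * w)⁻¹ = w⁻¹ * cs.simple i := by rw [mul_inv_rev, cs.inv_simple]
    rcases cs.length_simple_mul w i with h | h
    · rw [hl1 i w h, flip_t, hinv, hr1 i w⁻¹ (by rw [hlen, h, cs.length_inv])]
    · rw [hl2 i w h, map_add, map_smul, flip_t, flip_t, hinv, hr2 i w⁻¹ (by rw [hlen, h, cs.length_inv])]
  exact LinearMap.congr_fun h Y

theorem flip_t_mul (h1 : H_1) (D : Hecke0 cs L H) : ∀ (n : ℕ) (x : W), cs.length x = n → ∀ Y : H,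
    flip D (D.t x * Y) = flip D Y * D.t x⁻¹ := by
  obtain ⟨h0, hl1, -, hr1, -, -⟩ := h1 I W H M cs L D
  intro n
  induction n with
  | zero =>
    intro x hx Y
    rw [cs.length_eq_zero_iff.1 hx, inv_one, h0, one_mul, mul_one]
  | succ n ih =>
    intro x hx Y
    have hx1 : x ≠ 1 := by
      intro h
      rw [h, cs.length_one] at hx
      omega
    obtain ⟨i, hi⟩ := cs.exists_leftDescent_of_ne_one hx1
    have hlt : cs.length (cs.simple i * x) + 1 = cs.length x := cs.isLeftDescent_iff.1 hi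
    have hxe : x = cs.simple i * (cs.simple i * x) := by
      rw [← mul_assoc, cs.simple_mul_simple_self, one_mul]
    have h2 : D.t x = D.t (cs.simple i) * D.t (cs.simple i * x) := by
      rw [hl1 i (cs.simple i * x) (by rw [← hxe, hlt]), ← hxe]
    have h3 : (cs.simple i * x)⁻¹ * cs.simple i = x⁻¹ := by
      rw [mul_inv_rev, mul_assoc, inv_mul_cancel, mul_one]
    have h4 : D.t (cs.simple i * x)⁻¹ * D.t (cs.simple i) = D.t x⁻¹ := by
      rw [hr1 i (cs.simple i * x)⁻¹ (by rw [h3, cs.length_inv, cs.length_inv, hlt]), h3]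
    rw [h2, mul_assoc, flip_simple h1 D, ih (cs.simple i * x) (by omega) Y, mul_assoc, h4]

theorem flip_mul (h1 : H_1) (D : Hecke0 cs L H) (Y Z : H) : flip D (Y * Z) = flip D Z * flip D Y := by
  have h : flip D ∘ₗ LinearMap.mulRight ℤ[T;T⁻¹] Z =
      LinearMap.mulLeft ℤ[T;T⁻¹] (flip D Z) ∘ₗ flip D := by
    refine D.t.ext fun w => ?_
    simp only [LinearMap.comp_apply, LinearMap.mulLeft_apply, LinearMap.mulRight_apply, flip_t]
    exact flip_t_mul h1 D _ w rfl Z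
  exact LinearMap.congr_fun h Y

theorem flip_one (h1 : H_1) (D : Hecke0 cs L H) : flip D 1 = 1 := by
  obtain ⟨h0, -⟩ := h1 I W H M cs L D
  have h := flip_t D 1
  rwa [inv_one, h0] at h

theorem bar_flip (h1 : H_1) (D : Hecke1 cs L H)
    (hs : ∀ (p : ℤ[T;T⁻¹]) (Z : H), D.bar (p • Z) = invert p • D.bar Z) (Z : H) :
    D.bar (flip D.toHecke0 Z) = flip D.toHecke0 (D.bar Z) := by
  have hZ : Z ∈ Submodule.span ℤ[T;T⁻¹] (Set.range D.t) := by
    rw [D.t.span_eq]
    exact Submodule.mem_top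
  induction hZ using Submodule.span_induction with
  | mem Z hZ =>
    obtain ⟨w, rfl⟩ := hZ
    have e1 : ∀ w, D.bar (D.t w) * D.t w⁻¹ = 1 := fun w => by
      have h := (D.bar_t 0 w).1
      rwa [neg_zero, T_zero, one_smul, one_smul] at h
    have e2 : ∀ w, D.t w⁻¹ * D.bar (D.t w) = 1 := fun w => by
      have h := (D.bar_t 0 w).2
      rwa [neg_zero, T_zero, one_smul, one_smul] at h
    have e3 : flip D.toHecke0 (D.bar (D.t w)) * D.t w = 1 := by
      have h := congrArg (flip D.toHecke0) (e2 w)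
      rwa [flip_mul h1, flip_t, inv_inv, flip_one h1] at h
    have e4 := e2 w⁻¹
    rw [inv_inv] at e4
    rw [flip_t]
    calc D.bar (D.t w⁻¹) = (flip D.toHecke0 (D.bar (D.t w)) * D.t w) * D.bar (D.t w⁻¹) := by
          rw [e3, one_mul]
      _ = flip D.toHecke0 (D.bar (D.t w)) := by rw [mul_assoc, e4, mul_one]
  | zero => simp
  | add Y Z _ _ hY hZ => rw [map_add, map_add, map_add, map_add, hY, hZ]
  | smul p Z _ hZ => rw [map_smul, hs, hs, map_smul, hZ]

/-- **Packet RA-HV.** -/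
theorem h_hv (h1 : H_1) (h2 : H_2) (h3 : H_3) : H_V := by
  intro I W H _ _ _ M cs L hL D
  obtain ⟨hs, -, -, -, -, -, huniq, -⟩ := h2 I W H M cs L hL D
  obtain ⟨⟨b, hb, -, -⟩, -⟩ := h3 I W H M cs L hL D
  have hc : ∀ w, flip D.toHecke0 (D.c w) = D.c w⁻¹ := by
    intro w
    refine huniq w⁻¹ _ ?_ fun y => ?_
    · rw [bar_flip h1 D.toHecke1 hs, D.bar_c]
    · rw [← flip_t, ← map_sub, repr_inv D.t _ (flip_t D.toHecke0)]
      exact D.c_sub w y⁻¹
  refine ⟨⟨flip D.toHecke0, flip_t _, fun Y Z => flip_mul h1 _ Y Z, hc⟩, fun w y => ?_, fun h hh x y z => ?_⟩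
  · rw [← hc, repr_inv D.t _ (flip_t D.toHecke0), inv_inv]
  · have key : ∀ x y, b.repr (D.c x * D.c y) = h x y := by
      intro x y
      rw [hh x y, Finsupp.sum]
      simp only [← hb]
      rw [map_sum]
      simp only [map_smul, Module.Basis.repr_self, Finsupp.smul_single, smul_eq_mul, mul_one]
      exact Finsupp.sum_single (h x y)
    have hF : ∀ w, flip D.toHecke0 (b w) = b w⁻¹ := fun w => by rw [hb, hb, hc]
    rw [← key x y, ← key y⁻¹ x⁻¹, ← hc, ← hc, ← flip_mul h1, repr_inv b _ hF, inv_inv]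

end Pool.Agent.Helper59.RA
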